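import Pool.Agent.Helper74.CO.Goals

/-!
# Project CO (MP_c5396e_co), packet CO-LI
-/

set_option autoImplicit false

namespace Pool.Agent.Helper24.CO

open Finset Pool.Agent.Helper74.CO

theorem t_LI : Pool.Agent.Helper74.CO.LI := by
  intro F _ _ α p r κ _ n n' hp hgen hcard hκ hlt hsum
  haveI : Fact p.Prime := ⟨hp⟩
  letI : Algebra (ZMod p) F := ZMod.algebra F p
  haveI : Module.Finite (ZMod p) F := Module.Finite.of_finite
  have hfin : Module.finrank (ZMod p) F = r := by
    have h1 := Module.card_eq_pow_finrank (K := ZMod p) (V := F)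
    rw [ZMod.card, hcard] at h1
    exact (Nat.pow_right_injective hp.two_le h1).symm
  have htop : IntermediateField.adjoin (ZMod p) {α} = ⊤ := by
    rw [eq_top_iff]
    intro x _
    by_cases hx : x = 0
    · rw [hx]
      exact zero_mem _
    · obtain ⟨k, rfl⟩ := hgen x hx
      exact pow_mem (IntermediateField.mem_adjoin_simple_self _ α) k
  have hdeg : (minpoly (ZMod p) α).natDegree = r := by
    rw [← hfin]
    exact (Field.primitive_element_iff_minpoly_natDegree_eq (ZMod p) α).1 htop
  have hli := linearIndependent_pow (K := ZMod p) α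
  rw [hdeg] at hli
  have hli' : LinearIndependent (ZMod p) (fun k : Fin κ => α ^ (k : ℕ)) :=
    hli.comp (Fin.castLE hκ) (Fin.castLE_injective hκ)
  have h0 := Fintype.linearIndependent_iff.1 hli'
    (fun k : Fin κ => ((n k : ℕ) : ZMod p) - ((n' k : ℕ) : ZMod p)) (by
      have : ∀ k : Fin κ, (((n k : ℕ) : ZMod p) - ((n' k : ℕ) : ZMod p)) • α ^ (k : ℕ) =
          (n k : F) * α ^ (k : ℕ) - (n' k : F) * α ^ (k : ℕ) := by
        intro k
        rw [Algebra.smul_def, map_sub, map_natCast, map_natCast, sub_mul]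
      rw [Finset.sum_congr rfl fun k _ => this k, Finset.sum_sub_distrib, sub_eq_zero]
      rw [Finset.sum_range, Finset.sum_range] at hsum
      exact hsum)
  intro k hk
  have h1 := h0 ⟨k, hk⟩
  have h2 : ((n k : ℕ) : ZMod p) = ((n' k : ℕ) : ZMod p) := sub_eq_zero.1 h1
  rw [ZMod.natCast_eq_natCast_iff', Nat.mod_eq_of_lt (hlt k hk).1,
    Nat.mod_eq_of_lt (hlt k hk).2] at h2
  exact h2

end Pool.Agent.Helper24.CO
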