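import Pool.Agent.Helper74.CO.Goals

/-!
# Project CO (MP_c5396e_co), packet CO-MIX
-/

set_option autoImplicit false

namespace Pool.Agent.Helper24.CO

open Finset Pool.Agent.Helper74.CO

section

variable {F : Type} [Field F] [Fintype F] [DecidableEq F]

theorem mc_star (χ : MulChar F ℂ) (a : F) : (starRingEnd ℂ) (χ a) = χ⁻¹ a :=
  MulChar.star_apply' χ a

theorem mc_norm_one (χ : MulChar F ℂ) {a : F} (ha : a ≠ 0) : ‖χ a‖ = 1 := by
  have h1 : χ a ^ (Fintype.card F - 1) = 1 := by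
    rw [← map_pow, FiniteField.pow_card_sub_one_eq_one a ha, map_one]
  have h2 : Fintype.card F - 1 ≠ 0 := by
    have := Fintype.one_lt_card (α := F)
    omega
  exact Complex.norm_eq_one_of_pow_eq_one h1 h2

theorem mc_norm_le (χ : MulChar F ℂ) (a : F) : ‖χ a‖ ≤ 1 := by
  by_cases ha : a = 0
  · subst ha
    rw [MulChar.map_zero]
    simp
  · exact (mc_norm_one χ ha).le

theorem ac_norm (ψ : AddChar F ℂ) (a : F) : ‖ψ a‖ = 1 := AddChar.norm_apply ψ a

theorem ac_star (ψ : AddChar F ℂ) (a : F) : (starRingEnd ℂ) (ψ a) = ψ (-a) :=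
  (AddChar.map_neg_eq_conj ψ a).symm

theorem t_MIX : ∀ (F : Type) [Field F] [Fintype F] [DecidableEq F],
    GEN F → L2A F → MIX F := by
  intro F _ _ _ hG hL χ₁ χ₂ ψ t hχ hψ ht
  refine hG χ₁ (fun x => χ₂ (x - t) * ψ x) {1} (fun r => -t * (1 - r) ^ 2 / r)
    (fun z => ‖∑ w, (χ₂ (w - 1) * χ₂⁻¹ w) * ψ (z * w)‖) ?_ ?_ ?_ ?_ ?_ ?_
  · intro x
    rw [norm_mul, ac_norm, mul_one]
    exact mc_norm_le _ _
  · simp
  · intro z
    exact norm_nonneg _
  · refine hL ψ (fun w => χ₂ (w - 1) * χ₂⁻¹ w) hψ fun w => ?_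
    rw [norm_mul]
    exact mul_le_one₀ (mc_norm_le _ _) (norm_nonneg _) (mc_norm_le _ _)
  · intro z
    by_contra hcon
    rw [not_le, Finset.two_lt_card] at hcon
    obtain ⟨a, ha, b, hb, c, hc, hab, hac, hbc⟩ := hcon
    have key : ∀ r ∈ (univ.erase (0 : F)).filter
        (fun r => r ∉ ({1} : Finset F) ∧ -t * (1 - r) ^ 2 / r = z),
        t * r ^ 2 + (z - 2 * t) * r + t = 0 := by
      intro r hr
      simp only [mem_filter, mem_erase, mem_univ, and_true] at hr
      obtain ⟨hr0, -, hrz⟩ := hr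
      rw [div_eq_iff hr0] at hrz
      linear_combination -hrz
    have h1 := key a ha
    have h2 := key b hb
    have h3 := key c hc
    have e1 : t * (a + b) + (z - 2 * t) = 0 := by
      refine mul_left_cancel₀ (sub_ne_zero.2 hab) ?_
      linear_combination h1 - h2
    have e2 : t * (a + c) + (z - 2 * t) = 0 := by
      refine mul_left_cancel₀ (sub_ne_zero.2 hac) ?_
      linear_combination h1 - h3
    refine hbc (sub_eq_zero.1 ?_)
    refine mul_left_cancel₀ ht ?_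
    linear_combination e1 - e2
  · intro r hr0 hr
    have hr1 : r ≠ 1 := by simpa using hr
    have hc0 : t * (1 - 1 / r) ≠ 0 := by
      refine mul_ne_zero ht ?_
      rw [sub_ne_zero]
      intro h
      exact hr1 ((eq_div_iff hr0).1 h ▸ (one_mul r).symm)
    -- the full sum
    have hfull : ‖∑ x, (χ₂ (x - t) * ψ x) * (starRingEnd ℂ) (χ₂ (r * x - t) * ψ (r * x))‖ =
        ‖∑ w, (χ₂ (w - 1) * χ₂⁻¹ w) * ψ ((-t * (1 - r) ^ 2 / r) * w)‖ := by
      have hb : Function.Bijective (fun w : F => t / r + t * (1 - 1 / r) * w) := by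
        refine (Finite.injective_iff_bijective).1 fun w w' h => ?_
        exact mul_left_cancel₀ hc0 (add_left_cancel h)
      rw [← hb.sum_comp]
      have hterm : ∀ w : F,
          (χ₂ ((t / r + t * (1 - 1 / r) * w) - t) * ψ (t / r + t * (1 - 1 / r) * w)) *
            (starRingEnd ℂ) (χ₂ (r * (t / r + t * (1 - 1 / r) * w) - t) *
              ψ (r * (t / r + t * (1 - 1 / r) * w))) =
          (χ₂ (t * (1 - 1 / r)) * χ₂⁻¹ (r * (t * (1 - 1 / r))) * ψ ((1 - r) * t / r)) *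
            ((χ₂ (w - 1) * χ₂⁻¹ w) * ψ ((-t * (1 - r) ^ 2 / r) * w)) := by
        intro w
        have e1 : (t / r + t * (1 - 1 / r) * w) - t = (t * (1 - 1 / r)) * (w - 1) := by
          field_simp
          ring
        have e2 : r * (t / r + t * (1 - 1 / r) * w) - t = (r * (t * (1 - 1 / r))) * w := by
          field_simp
          ring
        have e3 : (t / r + t * (1 - 1 / r) * w) + -(r * (t / r + t * (1 - 1 / r) * w)) =
            (1 - r) * t / r + (-t * (1 - r) ^ 2 / r) * w := by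
          field_simp
          ring
        have e4 : ψ ((1 - r) * t / r) * ψ ((-t * (1 - r) ^ 2 / r) * w) =
            ψ (t / r + t * (1 - 1 / r) * w) * ψ (-(r * (t / r + t * (1 - 1 / r) * w))) := by
          rw [← AddChar.map_add_eq_mul, ← AddChar.map_add_eq_mul, e3]
        rw [map_mul (starRingEnd ℂ), mc_star, ac_star, e1, e2, map_mul χ₂, map_mul χ₂⁻¹]
        linear_combination (-(χ₂ (t * (1 - 1 / r)) * χ₂⁻¹ (r * (t * (1 - 1 / r))) *
          (χ₂ (w - 1) * χ₂⁻¹ w))) * e4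
      rw [Finset.sum_congr rfl fun w _ => hterm w, ← Finset.mul_sum, norm_mul]
      have : ‖χ₂ (t * (1 - 1 / r)) * χ₂⁻¹ (r * (t * (1 - 1 / r))) * ψ ((1 - r) * t / r)‖ = 1 := by
        rw [norm_mul, norm_mul, mc_norm_one _ hc0, mc_norm_one _ (mul_ne_zero hr0 hc0), ac_norm]
        norm_num
      rw [this, one_mul]
    have hsplit := Finset.sum_erase_add univ
      (fun x => (χ₂ (x - t) * ψ x) * (starRingEnd ℂ) (χ₂ (r * x - t) * ψ (r * x)))
      (mem_univ (0 : F))
    have h0 : ‖(χ₂ (0 - t) * ψ 0) * (starRingEnd ℂ) (χ₂ (r * 0 - t) * ψ (r * 0))‖ ≤ 1 := by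
      rw [norm_mul, RCLike.norm_conj, norm_mul, norm_mul, ac_norm, ac_norm, mul_one, mul_one]
      exact mul_le_one₀ (mc_norm_le _ _) (norm_nonneg _) (mc_norm_le _ _)
    have heq : ∑ x ∈ univ.erase (0 : F),
        (χ₂ (x - t) * ψ x) * (starRingEnd ℂ) (χ₂ (r * x - t) * ψ (r * x)) =
        (∑ x, (χ₂ (x - t) * ψ x) * (starRingEnd ℂ) (χ₂ (r * x - t) * ψ (r * x))) -
        (χ₂ (0 - t) * ψ 0) * (starRingEnd ℂ) (χ₂ (r * 0 - t) * ψ (r * 0)) :=
      eq_sub_of_add_eq hsplit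
    show ‖∑ x ∈ univ.erase (0 : F),
        (χ₂ (x - t) * ψ x) * (starRingEnd ℂ) (χ₂ (r * x - t) * ψ (r * x))‖ ≤
      ‖∑ w, (χ₂ (w - 1) * χ₂⁻¹ w) * ψ ((-t * (1 - r) ^ 2 / r) * w)‖ + 2
    rw [heq]
    refine (norm_sub_le _ _).trans ?_
    rw [hfull]
    linarith

end

end Pool.Agent.Helper24.CO
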